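import Pool.Agent.H569R2.Tri.Iface

/-!
# Distances of the Hadamard point set
-/

namespace Pool.Agent.H569R2.Tri.HadAux
open Pool.Agent.NPC
open scoped ENNReal

/-- Hamming distance -/
def ham (a b : List Bool) : ℕ := (List.zipWith xor a b).count true

theorem ham_nil : ham [] [] = 0 := rfl

theorem ham_cons (x y : Bool) (a b : List Bool) :
    ham (x :: a) (y :: b) = ham a b + (if x = y then 0 else 1) := by
  unfold ham
  rw [List.zipWith_cons_cons, List.count_cons]
  cases x <;> cases y <;> simp

theorem ham_append {a b c d : List Bool} (h : a.length = b.length) :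
    ham (a ++ c) (b ++ d) = ham a b + ham c d := by
  unfold ham
  rw [List.zipWith_append h, List.count_append]

theorem ham_self (a : List Bool) : ham a a = 0 := by
  induction a with
  | nil => rfl
  | cons x a ih => rw [ham_cons, ih]; simp

theorem ham_map_eq (e : Bool) : ∀ a b : List Bool, a.length = b.length →
    ham (a.map (fun x => xor e x)) (b.map (fun x => xor e x)) = ham a b := by
  intro a
  induction a with
  | nil =>
    intro b h
    cases b with
    | nil => rfl
    | cons y b => simp at h
  | cons x a ih =>
    intro b h
    cases b with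
    | nil => simp at h
    | cons y b =>
      rw [List.map_cons, List.map_cons, ham_cons, ham_cons, ih b (by simpa using h)]
      cases e <;> cases x <;> cases y <;> simp

theorem ham_map_ne (e f : Bool) (hef : e ≠ f) : ∀ a b : List Bool, a.length = b.length →
    ham (a.map (fun x => xor e x)) (b.map (fun x => xor f x)) + ham a b = a.length := by
  intro a
  induction a with
  | nil =>
    intro b h
    cases b with
    | nil => rfl
    | cons y b => simp at h
  | cons x a ih =>
    intro b h
    cases b with
    | nil => simp at h
    | cons y b =>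
      have h1 := ih b (by simpa using h)
      have h2 : (if xor e x = xor f y then 0 else 1) + (if x = y then 0 else 1) = 1 := by
        cases e <;> cases f <;> cases x <;> cases y <;> simp at hef ⊢
      rw [List.map_cons, List.map_cons, ham_cons, ham_cons, List.length_cons]
      omega

theorem row_cons (e : Bool) (l : List Bool) :
    row (e :: l) = row l ++ (row l).map (fun x => xor e x) := rfl

theorem row_length (l : List Bool) : (row l).length = 2 ^ l.length := by
  induction l with
  | nil => rfl
  | cons e l ih =>
    rw [row_cons, List.length_append, List.length_map, ih, List.length_cons, pow_succ]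
    ring

theorem ham_row : ∀ l l' : List Bool, l.length = l'.length →
    2 * ham (row l) (row l') = if l = l' then 0 else 2 ^ l.length := by
  intro l
  induction l with
  | nil =>
    intro l' h
    cases l' with
    | nil => rfl
    | cons y b => simp at h
  | cons e l ih =>
    intro l' h
    cases l' with
    | nil => simp at h
    | cons f l' =>
      have hl : l.length = l'.length := by simpa using h
      have h1 := ih l' hl
      have hr : (row l).length = (row l').length := by rw [row_length, row_length, hl]
      rw [row_cons, row_cons, ham_append hr]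
      by_cases hef : e = f
      · subst hef
        rw [ham_map_eq e _ _ hr]
        by_cases hll : l = l'
        · subst hll
          rw [ham_self]
          simp
        · rw [if_neg hll] at h1
          rw [if_neg (by simpa using hll), List.length_cons, pow_succ]
          omega
      · have h2 := ham_map_ne e f hef (row l) (row l') hr
        rw [row_length] at h2
        rw [if_neg (by simp [hef]), List.length_cons, pow_succ]
        omega

theorem dig_length (N v : ℕ) : (dig N v).length = N.bits.length := by
  unfold dig
  rw [List.length_map, List.length_zipIdx]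

theorem dig_inj {N u v : ℕ} (hu : u < N) (hv : v < N) (h : dig N u = dig N v) : u = v := by
  have hN : N < 2 ^ N.bits.length := by
    rw [Nat.size_eq_bits_len]
    exact Nat.lt_size_self N
  have hkey : ∀ w i, i < N.bits.length → (dig N w)[i]? = some (w.testBit i) := by
    intro w i hi
    unfold dig
    rw [List.getElem?_map, List.getElem?_zipIdx, List.getElem?_eq_getElem hi]
    simp only [Option.map_some, Option.some.injEq, Nat.zero_add]
    rw [Nat.testBit_eq_inth, ← List.getD_default_eq_getI]
    rfl
  apply Nat.eq_of_testBit_eq
  intro i
  by_cases hi : i < N.bits.length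
  · have h1 := hkey u i hi
    have h2 := hkey v i hi
    rw [h, h2] at h1
    simpa using h1.symm
  · have h3 : 2 ^ N.bits.length ≤ 2 ^ i := Nat.pow_le_pow_right (by norm_num) (by omega)
    rw [Nat.testBit_lt_two_pow (by omega), Nat.testBit_lt_two_pow (by omega)]

theorem ham_wordB (T : List (ℕ × ℕ × ℕ)) (hfb : ∀ b v, v < nv T → fb T b v < nv T) (b u v : ℕ)
    (hu : u < nv T) (hv : v < nv T) :
    2 * ham (wordB T b u) (wordB T b v) = 2 ^ (nv T).bits.length * bl T b u v := by
  unfold wordB bl
  have hl : (dig (nv T) (fb T b u)).length = (dig (nv T) (fb T b v)).length := by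
    rw [dig_length, dig_length]
  have hr : (row (dig (nv T) (fb T b u))).length = (row (dig (nv T) (fb T b v))).length := by
    rw [row_length, row_length, hl]
  have h1 := ham_row _ _ hl
  by_cases hf : fb T b u = fb T b v
  · rw [if_pos hf]
    by_cases hs : (fb T b u = u ↔ fb T b v = v)
    · rw [if_pos hs, ← hf]
      have h2 : (decide (fb T b u ≠ u)) = (decide (fb T b u ≠ v)) := by
        rw [← hf] at hs
        simp only [ne_eq, decide_eq_decide]
        rw [hs]
      rw [h2, ham_self]
      simp
    · rw [if_neg hs, ← hf]
      have h2 : (decide (fb T b u ≠ u)) ≠ (decide (fb T b u ≠ v)) := by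
        rw [← hf] at hs
        simp only [ne_eq, decide_eq_decide]
        tauto
      have h3 := ham_map_ne _ _ h2 (row (dig (nv T) (fb T b u))) (row (dig (nv T) (fb T b u))) rfl
      rw [ham_self, row_length, dig_length] at h3
      omega
  · rw [if_neg hf]
    have hd : dig (nv T) (fb T b u) ≠ dig (nv T) (fb T b v) := fun h =>
      hf (dig_inj (hfb b u hu) (hfb b v hv) h)
    rw [if_neg hd, dig_length] at h1
    by_cases hs : (decide (fb T b u ≠ u)) = (decide (fb T b v ≠ v))
    · rw [hs, ham_map_eq _ _ _ hr]
      omega
    · have h3 := ham_map_ne _ _ hs (row (dig (nv T) (fb T b u))) (row (dig (nv T) (fb T b v))) hr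
      rw [row_length, dig_length] at h3
      omega

theorem wordB_length (T : List (ℕ × ℕ × ℕ)) (b v : ℕ) :
    (wordB T b v).length = 2 ^ (nv T).bits.length := by
  unfold wordB
  rw [List.length_map, row_length, dig_length]

theorem ham_flatMap {α : Type} (f g : α → List Bool) : ∀ L : List α,
    (∀ x ∈ L, (f x).length = (g x).length) →
    ham (L.flatMap f) (L.flatMap g) = (L.map (fun x => ham (f x) (g x))).sum := by
  intro L
  induction L with
  | nil => intro _; rfl
  | cons a L ih =>
    intro h
    rw [List.flatMap_cons, List.flatMap_cons, ham_append (h a (by simp)), List.map_cons,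
      List.sum_cons, ih (fun x hx => h x (by simp [hx]))]

theorem ham_word (T : List (ℕ × ℕ × ℕ)) (hfb : ∀ b v, v < nv T → fb T b v < nv T) (u v : ℕ)
    (hu : u < nv T) (hv : v < nv T) :
    2 * ham (word T u) (word T v) =
      2 ^ (nv T).bits.length * ∑ b ∈ Finset.range 9, mu b * bl T b u v := by
  unfold word
  have hlen : ∀ b w, ((List.range (mu b)).flatMap (fun _ => wordB T b w)).length =
      mu b * 2 ^ (nv T).bits.length := by
    intro b w
    rw [List.length_flatMap]
    simp [wordB_length]
  rw [ham_flatMap _ _ _ (fun b _ => by rw [hlen, hlen])]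
  have h1 : ∀ b, ham ((List.range (mu b)).flatMap (fun _ => wordB T b u))
      ((List.range (mu b)).flatMap (fun _ => wordB T b v)) =
      mu b * ham (wordB T b u) (wordB T b v) := by
    intro b
    rw [ham_flatMap _ _ _ (fun _ _ => by rw [wordB_length, wordB_length])]
    simp
  simp only [h1]
  rw [← List.sum_map_mul_left, Finset.mul_sum, Finset.sum_range, ← List.sum_ofFn]
  congr 1
  rw [List.ofFn_eq_map]
  have h2 : List.range 9 = (List.finRange 9).map (fun i : Fin 9 => (i : ℕ)) := by decide
  rw [h2, List.map_map]
  apply List.map_congr_left
  intro b _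
  simp only [Function.comp]
  have h3 := ham_wordB T hfb b u v hu hv
  calc 2 * (mu b * ham (wordB T b u) (wordB T b v)) =
        mu b * (2 * ham (wordB T b u) (wordB T b v)) := by ring
    _ = _ := by rw [h3]; ring

/-- signs -/
def sg (x : Bool) : ℚ := if x = true then (1 : ℚ) else -1

theorem sum_pow (p : ℝ) (hp : 0 < p) : ∀ a b : List Bool, a.length = b.length →
    (List.zipWith (fun a b : ℚ => |(a : ℝ) - b| ^ p) (a.map sg) (b.map sg)).sum =
      (ham a b : ℝ) * 2 ^ p := by
  intro a
  induction a with
  | nil =>
    intro b h
    cases b with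
    | nil => simp [ham_nil]
    | cons y b => simp at h
  | cons x a ih =>
    intro b h
    cases b with
    | nil => simp at h
    | cons y b =>
      rw [List.map_cons, List.map_cons, List.zipWith_cons_cons, List.sum_cons,
        ih b (by simpa using h), ham_cons]
      have h1 : |((sg x : ℚ) : ℝ) - ((sg y : ℚ) : ℝ)| ^ p =
          ((if x = y then (0 : ℕ) else 1 : ℕ) : ℝ) * 2 ^ p := by
        cases x <;> cases y <;> simp only [sg]
        · simp [Real.zero_rpow hp.ne']
        · norm_num
        · norm_num
        · simp [Real.zero_rpow hp.ne']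
      rw [h1]
      push_cast
      ring

theorem word_length (T : List (ℕ × ℕ × ℕ)) (v : ℕ) :
    (word T v).length = 43 * 2 ^ (nv T).bits.length := by
  unfold word
  have hlen : ∀ b w, ((List.range (mu b)).flatMap (fun _ => wordB T b w)).length =
      mu b * 2 ^ (nv T).bits.length := by
    intro b w
    rw [List.length_flatMap]
    simp [wordB_length]
  rw [List.length_flatMap]
  simp only [hlen]
  rw [List.sum_map_mul_right]
  congr 1

theorem redH_getD (T : List (ℕ × ℕ × ℕ)) (u : ℕ) (hu : u < nv T) :
    (redH T).getD u [] = (word T u).map sg := by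
  unfold redH
  rw [List.getD_eq_getElem?_getD, List.getElem?_map, List.getElem?_range hu]
  rfl

end HadAux

open HadAux
open scoped ENNReal

theorem stmtH : StmtH := by
  intro T hfb
  refine ⟨?_, 43 * 2 ^ (nv T).bits.length,
    Nat.mul_pos (by norm_num) (pow_pos (by norm_num) _), ?_⟩
  · intro p hp1 hp u v hu hv
    have hp0 : 0 < p.toReal := ENNReal.toReal_pos (by
      intro h
      rw [h] at hp1
      exact absurd hp1 (by simp)) hp
    unfold lpDist
    rw [if_neg hp, redH_getD T u hu, redH_getD T v hv,
      sum_pow p.toReal hp0 _ _ (by rw [word_length, word_length])]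
    have h1 := ham_word T hfb u v hu hv
    have h2 : (ham (word T u) (word T v) : ℝ) = (2 : ℝ) ^ (nv T).bits.length / 2 *
        ∑ b ∈ Finset.range 9, (mu b : ℝ) * bl T b u v := by
      have h3 : ((2 * ham (word T u) (word T v) : ℕ) : ℝ) =
          ((2 ^ (nv T).bits.length * ∑ b ∈ Finset.range 9, mu b * bl T b u v : ℕ) : ℝ) := by
        rw [h1]
      push_cast at h3
      linarith
    have h4 : (0 : ℝ) ≤ (2 : ℝ) ^ (nv T).bits.length / 2 *
        ∑ b ∈ Finset.range 9, (mu b : ℝ) * bl T b u v :=
      mul_nonneg (div_nonneg (pow_nonneg (by norm_num) _) (by norm_num))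
        (Finset.sum_nonneg fun b _ => mul_nonneg (Nat.cast_nonneg _) (Nat.cast_nonneg _))
    rw [h2, Real.mul_rpow h4 (Real.rpow_nonneg (by norm_num) _), ← Real.rpow_mul (by norm_num),
      mul_one_div_cancel hp0.ne', Real.rpow_one]
    ring
  · intro x hx
    unfold redH at hx
    obtain ⟨v, _, rfl⟩ := List.mem_map.1 hx
    rw [List.length_map, word_length]

end Pool.Agent.H569R2.Tri
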