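import Pool.Agent.H569R2.Tri.Iface

/-!
# Polynomial time of the constructions
-/

namespace Pool.Agent.H569R2.Tri.PolAux
open Pool.Agent.NPC
open scoped ENNReal

variable {α : Type} [TEnc α]

attribute [local fun_prop] Poly.range_length Poly.natBits

theorem tgt_poly {b k : α → ℕ} (hb : Poly b) (hk : Poly k) :
    Poly (fun a => tgt (b a) (k a)) := by
  unfold tgt
  fun_prop

theorem coord_poly {c : α → ℕ} {t : α → ℕ × ℕ × ℕ} (hc : Poly c) (ht : Poly t) :
    Poly (fun a => coord (c a) (t a)) := by
  unfold coord
  fun_prop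

attribute [local fun_prop] tgt_poly coord_poly

theorem rep_poly {T : α → List (ℕ × ℕ × ℕ)} {c i : α → ℕ} (hT : Poly T) (hc : Poly c)
    (hi : Poly i) : Poly (fun a => rep (T a) (c a) (i a)) := by
  unfold rep
  fun_prop

attribute [local fun_prop] rep_poly

theorem fb_poly {T : α → List (ℕ × ℕ × ℕ)} {b v : α → ℕ} (hT : Poly T) (hb : Poly b)
    (hv : Poly v) : Poly (fun a => fb (T a) (b a) (v a)) := by
  unfold fb
  fun_prop

theorem nv_uPoly {T : α → List (ℕ × ℕ × ℕ)} (hT : Poly T) : UPoly (fun a => nv (T a)) := by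
  unfold nv
  exact UPoly.add (UPoly.mul (UPoly.const 12) (UPoly.length hT)) (UPoly.const 3)

theorem nv_poly {T : α → List (ℕ × ℕ × ℕ)} (hT : Poly T) : Poly (fun a => nv (T a)) :=
  (nv_uPoly hT).toPoly

theorem range_nv_poly {T : α → List (ℕ × ℕ × ℕ)} (hT : Poly T) :
    Poly (fun a => List.range (nv (T a))) := (nv_uPoly hT).range

theorem mu_poly {b : α → ℕ} (hb : Poly b) : Poly (fun a => mu (b a)) := by
  unfold mu
  fun_prop

theorem mu_le (b : ℕ) : mu b ≤ 7 := by
  unfold mu
  split_ifs <;> norm_num

theorem range_mu_poly {b : α → ℕ} (hb : Poly b) : Poly (fun a => List.range (mu (b a))) :=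
  (UPoly.of_le (mu_poly hb) (UPoly.const 7) (fun a => mu_le (b a))).range

attribute [local fun_prop] fb_poly nv_poly range_nv_poly range_mu_poly mu_poly

theorem dig_poly {N v : α → ℕ} (hN : Poly N) (hv : Poly v) : Poly (fun a => dig (N a) (v a)) := by
  unfold dig
  have h1 : Poly (fun a => (N a).bits) := Poly.natBits hN
  have h2 : Poly (fun a => (v a).bits) := Poly.natBits hv
  have h3 : Poly (fun p : α × Bool × ℕ => (v p.1).bits.getD p.2.2 false) :=
    Poly.getD (h2.comp (Poly.fst Poly.id)) (Poly.snd (Poly.snd Poly.id)) (NPC.Poly.const false)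
  exact NPC.Poly.map (l := fun a => (N a).bits.zipIdx) (F := fun a q => (v a).bits.getD q.2 false)
    (Poly.zipIdx h1) h3

attribute [local fun_prop] dig_poly

theorem row_length (l : List Bool) : (row l).length = 2 ^ l.length := by
  induction l with
  | nil => rfl
  | cons e l ih =>
    have h : row (e :: l) = row l ++ (row l).map (fun x => xor e x) := rfl
    rw [h, List.length_append, List.length_map, ih, List.length_cons, pow_succ]
    ring

theorem row_poly {T : α → List (ℕ × ℕ × ℕ)} {w : α → ℕ} (hT : Poly T) (hw : Poly w) :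
    Poly (fun a => row (dig (nv (T a)) (w a))) := by
  have h1 : Poly (fun p : List (ℕ × ℕ × ℕ) × ℕ => row (dig (nv p.1) p.2)) := by
    unfold row
    refine Poly.foldr (l := fun p : List (ℕ × ℕ × ℕ) × ℕ => dig (nv p.1) p.2)
      (s := fun _ => [true]) (F := fun _ e r => r ++ r.map (fun x => xor e x)) (by fun_prop)
      (NPC.Poly.const _) ?_ (Polynomial.C 96 * Polynomial.X + Polynomial.C 25) ?_
    · have h2 : Poly (fun p : (List (ℕ × ℕ × ℕ) × ℕ) × Bool × List Bool =>
          p.2.2 ++ p.2.2.map (fun x => xor p.2.1 x)) := by fun_prop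
      exact h2
    · rintro ⟨T, v⟩ k hk
      change sz (row ((dig (nv T) v).drop k)) ≤ _
      have h2 := sz_listBool_le (row ((dig (nv T) v).drop k))
      rw [row_length, List.length_drop] at h2
      have h3 : (dig (nv T) v).length = (nv T).size := by
        unfold dig
        rw [List.length_map, List.length_zipIdx, Nat.size_eq_bits_len]
      rw [h3] at h2
      have h4 : 2 ^ (nv T).size ≤ 2 * nv T := by
        have h5 : 0 < (nv T).size := Nat.size_pos.2 (by unfold nv; omega)
        have h6 : 2 ^ ((nv T).size - 1) ≤ nv T := Nat.lt_size.1 (by omega)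
        have h7 : (nv T).size = ((nv T).size - 1) + 1 := by omega
        rw [h7, pow_succ]
        omega
      have h8 : 2 ^ ((nv T).size - k) ≤ 2 ^ (nv T).size :=
        Nat.pow_le_pow_right (by norm_num) (by omega)
      have h9 : T.length < sz T := length_lt_sz T
      have h10 : nv T = 12 * T.length + 3 := rfl
      simp only [Polynomial.eval_add, Polynomial.eval_mul, Polynomial.eval_C, Polynomial.eval_X,
        sz_pair]
      omega
  exact h1.comp (g := fun p : List (ℕ × ℕ × ℕ) × ℕ => row (dig (nv p.1) p.2)) (f := fun a => (T a, w a)) (NPC.Poly.pair hT hw)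

attribute [local fun_prop] row_poly

theorem wordB_poly {T : α → List (ℕ × ℕ × ℕ)} {b v : α → ℕ} (hT : Poly T) (hb : Poly b)
    (hv : Poly v) : Poly (fun a => wordB (T a) (b a) (v a)) := by
  unfold wordB
  fun_prop

attribute [local fun_prop] wordB_poly

theorem word_poly {T : α → List (ℕ × ℕ × ℕ)} {v : α → ℕ} (hT : Poly T)
    (hv : Poly v) : Poly (fun a => word (T a) (v a)) := by
  unfold word
  fun_prop

attribute [local fun_prop] word_poly

theorem redH_poly : Poly redH := by
  have h : Poly (fun T : List (ℕ × ℕ × ℕ) => (List.range (nv T)).map (fun v =>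
      (word T v).map (fun x => if x = true then (1 : ℚ) else -1))) := by fun_prop
  exact h

theorem ht_poly {b : α → ℕ} (hb : Poly b) : Poly (fun a => ht (b a)) := by
  have h1 : Poly (fun a => if b a = 0 then (40 : ℚ) else if b a = 1 then 26 else
      if b a = 2 then 26 else if b a = 3 then 27 else if b a = 4 then 27 else
      if b a = 5 then 27 else 23) := by fun_prop
  refine h1.congr fun a => ?_
  unfold ht mu
  split_ifs <;> norm_num

theorem neg_ht_poly {b : α → ℕ} (hb : Poly b) : Poly (fun a => - ht (b a)) := by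
  have h1 : Poly (fun a => if b a = 0 then (-40 : ℚ) else if b a = 1 then -26 else
      if b a = 2 then -26 else if b a = 3 then -27 else if b a = 4 then -27 else
      if b a = 5 then -27 else -23) := by fun_prop
  refine h1.congr fun a => ?_
  unfold ht mu
  split_ifs <;> norm_num

attribute [local fun_prop] ht_poly neg_ht_poly

theorem ptI_poly {T : α → List (ℕ × ℕ × ℕ)} {v : α → ℕ} (hT : Poly T)
    (hv : Poly v) : Poly (fun a => ptI (T a) (v a)) := by
  unfold ptI
  fun_prop

attribute [local fun_prop] ptI_poly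

theorem redI_poly : Poly redI := by
  have h : Poly (fun T : List (ℕ × ℕ × ℕ) => (List.range (nv T)).map (fun v => ptI T v)) := by
    fun_prop
  exact h

theorem ev_poly {T : α → List (ℕ × ℕ × ℕ)} {c i : α → ℕ} (hT : Poly T) (hc : Poly c)
    (hi : Poly i) : Poly (fun a => ev (T a) (c a) (i a)) := by
  unfold ev
  fun_prop

theorem same_poly {S : α → List (ℕ × ℕ × ℕ)} {u v : α → ℕ} (hS : Poly S) (hu : Poly u)
    (hv : Poly v) : Poly (fun a => same (S a) (u a) (v a)) := by
  unfold same tl
  fun_prop

attribute [local fun_prop] ev_poly same_poly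

theorem selB_poly {T S : α → List (ℕ × ℕ × ℕ)} {i : α → ℕ} (hT : Poly T) (hS : Poly S)
    (hi : Poly i) : Poly (fun a => selB (T a) (S a) (i a)) := by
  unfold selB
  fun_prop

attribute [local fun_prop] selB_poly

theorem ext_poly {T S : α → List (ℕ × ℕ × ℕ)} (hT : Poly T) (hS : Poly S) :
    Poly (fun a => ext (T a) (S a)) := by
  unfold ext sel
  fun_prop

theorem differs_poly {s t : α → ℕ × ℕ × ℕ} (hs : Poly s) (ht : Poly t) :
    Poly (fun a => differs (s a) (t a)) := by
  unfold differs
  fun_prop

attribute [local fun_prop] ext_poly differs_poly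

theorem sz_sublist {β : Type} [TEnc β] {l l' : List β} (h : l.Sublist l') : sz l ≤ sz l' := by
  induction h with
  | slnil => exact le_rfl
  | cons a _ ih => rw [sz_list_cons]; omega
  | cons_cons a _ ih => rw [sz_list_cons, sz_list_cons]; omega

theorem greedy_sublist (T : List (ℕ × ℕ × ℕ)) : (greedy T).Sublist T := by
  unfold greedy
  induction T with
  | nil => exact List.Sublist.slnil
  | cons t T ih =>
    rw [List.foldr_cons]
    split_ifs
    · exact ih.cons_cons t
    · exact ih.cons t

theorem greedy_poly {T : α → List (ℕ × ℕ × ℕ)} (hT : Poly T) : Poly (fun a => greedy (T a)) := by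
  have h1 : Poly (fun T : List (ℕ × ℕ × ℕ) => greedy T) := by
    unfold greedy
    refine Poly.foldr (l := fun T : List (ℕ × ℕ × ℕ) => T) (s := fun _ => [])
      (F := fun _ t acc => if acc.all (fun s => differs s t) = true then t :: acc else acc)
      Poly.id (NPC.Poly.const _) ?_ Polynomial.X ?_
    · have h2 : Poly (fun p : List (ℕ × ℕ × ℕ) × (ℕ × ℕ × ℕ) × List (ℕ × ℕ × ℕ) =>
          if p.2.2.all (fun s => differs s p.2.1) = true then p.2.1 :: p.2.2 else p.2.2) := by
        fun_prop
      exact h2
    · intro T k _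
      change sz (greedy (T.drop k)) ≤ _
      rw [Polynomial.eval_X]
      exact (sz_sublist (greedy_sublist (T.drop k))).trans (sz_sublist (List.drop_sublist k T))
  exact h1.comp hT

attribute [local fun_prop] greedy_poly

theorem back_poly : Poly back := by
  have h : Poly (fun p : List (ℕ × ℕ × ℕ) × List (ℕ × ℕ × ℕ) =>
      if (greedy p.1).length ≤ (ext p.1 p.2).length then ext p.1 p.2 else greedy p.1) := by
    fun_prop
  exact h

end PolAux

open PolAux

theorem stmtP : StmtP := ⟨redH_poly, redI_poly, back_poly⟩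

end Pool.Agent.H569R2.Tri
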